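import Pool.Agent.MP_07406a_pr.Mg.Main

set_option autoImplicit false

open Pool.Agent.MP_07406a_pr Filter Topology

/-- Negated form of Q1 for the killed random walk: for some dimension, norm and prefactor satisfying
the standing assumptions, the limits defining the inverse correlation length exist below `λ_c`, and
for some direction `s` the function `λ ↦ ν_s(λ)` is not real-analytic at some point of
`(λ_sat(s), λ_exp)`. -/
theorem Pool.Agent.Results.MP_07406a_pr.KRWNonAnalytic.result :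
    ∃ (d : ℕ) (N : (Fin d → ℝ) → ℝ) (ψ : (Fin d → ℤ) → ℝ), 1 ≤ d ∧ Admissible N ψ ∧
      (∀ (s : Fin d → ℝ) (lam : ℝ), 0 < lam → lam < lamC N ψ →
        Tendsto (rate N ψ s lam) atTop (𝓝 (nu N ψ s lam))) ∧
      ∃ s : Fin d → ℝ, ∑ i, s i ^ 2 = 1 ∧ ∃ lam : ℝ, lamSat N ψ s < lam ∧ lam < lamExp N ψ ∧
        ¬ AnalyticAt ℝ (nu N ψ s) lam :=
  ⟨2, N1, psi, by norm_num, admissible, fun s _ h1 h2 =>
    (krw (fun y => (psi_pos y).le) (fun y _ => psi_pos y) hasSum_J h1 (lamC_one ▸ h2)).1 s, main⟩
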